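import Pool.Agent.U586.MU.GenMain
import Pool.Agent.Q282.UZ.Ord

/-!
# MP_12d50c_ag: finite rank of higher Chow groups, in each bidegree and each dimension

Q1 asks whether `CH^r(X, i) ⊗ ℚ` is finite-dimensional for all schemes `X` of finite type over `ℤ`.

The theorem: in each bidegree `(j, i)` separately, and inside every hereditary class of schemes (for example
the schemes of dimension at most `d`), `CH_j(X, i) ⊗ ℚ` is finite-dimensional for all `X` if and only if it is
finite-dimensional for the realization spaces of line arrangements which are integral and smooth over `ℤ` or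
over a prime field, and if and only if it is finite-dimensional for the integral schemes of solutions of unit
equations with the same properties. The dimension for `X` is then at most the sum of the dimensions for a finite family of such
schemes.
-/

set_option autoImplicit false

open CategoryTheory AlgebraicGeometry MvPolynomial Pool.Agent.Y116.UV Pool.Agent.Q282.UZ
  Pool.Agent.U586.MU

universe w

namespace Pool.Agent.Results.MP_12d50c_ag.RealizationSpaces

/-- `X` is the realization space over `ℤ` of a configuration type: the scheme of the configurations of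
points `e ∈ E` of the projective plane, in the coordinates given by a projective frame, for which exactly
the triples in a given set are collinear. -/
def IsRealizationSpace (X : Sch ℤ) : Prop :=
  ∃ (E : Type) (_ : Fintype E) (π : Cfg E), X = π.space ℤ

/-- `X` is the scheme over `ℤ` of the families of units `x_i, y_i`, `i ∈ I`, with `x_i + y_i = 1` which
satisfy given signed binomial equations `∏ u_v ^ p_v = ± ∏ u_v ^ q_v`. -/
def IsUnitScheme (X : Sch ℤ) : Prop :=
  ∃ (I : Type) (_ : Fintype I) (S : Set (SBin (I ⊕ I))), X = uspace ℤ S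

/-- Known properties of the groups `A j i X = CH_j(X, i) ⊗ ℚ`: isomorphic schemes have isomorphic groups, and
for a closed subscheme `Z` of `X` with complement `U` there is an exact sequence
`CH_j(Z, i) ⊗ ℚ → CH_j(X, i) ⊗ ℚ → CH_j(U, i) ⊗ ℚ`. -/
structure IsLocalizing (A : ℤ → ℤ → Sch ℤ → ModuleCat.{w} ℚ) : Prop where
  iso : ∀ {X Y : Sch ℤ}, FT False X → Nonempty (X ≅ Y) → ∀ j i,
    Nonempty (A j i X ≃ₗ[ℚ] A j i Y)
  exact : ∀ {Z X U : Sch ℤ} (a : Z ⟶ X) (b : U ⟶ X), FT False X → IsTriple a b → ∀ j i,
    ∃ (f : A j i Z →ₗ[ℚ] A j i X) (g : A j i X →ₗ[ℚ] A j i U), Function.Exact f g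

/-- `X` is in the class `K`, and it is empty or integral with the property `Sm`. -/
def Nice (K Sm : Sch ℤ → Prop) (X : Sch ℤ) : Prop := K X ∧ Good Sm X

/-- `A j i X` is finite-dimensional, and its dimension is at most the sum of the dimensions of `A j i Y` for a
finite family of schemes `Y` in `G`. -/
def Bounded (A : ℤ → ℤ → Sch ℤ → ModuleCat.{w} ℚ) (j i : ℤ) (G : Sch ℤ → Prop) (X : Sch ℤ) : Prop :=
  ∃ L : List (Sch ℤ), (∀ Y ∈ L, G Y) ∧ Module.Finite ℚ (A j i X) ∧
    Module.finrank ℚ (A j i X) ≤ (L.map fun Y => Module.finrank ℚ (A j i Y)).sum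

variable {A : ℤ → ℤ → Sch ℤ → ModuleCat.{w} ℚ}

lemma finite_of_exact {V W X : Type w} [AddCommGroup V] [AddCommGroup W] [AddCommGroup X] [Module ℚ V]
    [Module ℚ W] [Module ℚ X] (f : V →ₗ[ℚ] W) (g : W →ₗ[ℚ] X) (h : Function.Exact f g)
    [Module.Finite ℚ V] [Module.Finite ℚ X] : Module.Finite ℚ W ∧
      Module.finrank ℚ W ≤ Module.finrank ℚ V + Module.finrank ℚ X := by
  have hk : LinearMap.ker g = LinearMap.range f := LinearMap.exact_iff.mp h
  have h1 : Module.Finite ℚ (LinearMap.ker g) := by
    rw [hk]
    infer_instance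
  have h2 : Module.Finite ℚ (LinearMap.range g) := inferInstance
  have h4 : Module.Finite ℚ (W ⧸ LinearMap.ker g) := Module.Finite.equiv g.quotKerEquivRange.symm
  have h3 : Module.Finite ℚ W := Module.Finite.of_submodule_quotient (LinearMap.ker g)
  refine ⟨h3, ?_⟩
  rw [← LinearMap.finrank_range_add_finrank_ker g, hk, add_comm]
  exact add_le_add (LinearMap.finrank_range_le f) (Submodule.finrank_le _)

lemma ext_finite (hA : IsLocalizing A) (j i : ℤ) : Ext False fun X => Module.Finite ℚ (A j i X) where
  iso hX e h := by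
    obtain ⟨e⟩ := hA.iso hX e j i
    exact Module.Finite.equiv e
  total a b hX ht hZ hU := by
    obtain ⟨f, g, h⟩ := hA.exact a b hX ht j i
    exact (finite_of_exact f g h).1

lemma ext_bounded (hA : IsLocalizing A) (j i : ℤ) (G : Sch ℤ → Prop) : Ext False (Bounded A j i G) where
  iso hX e h := by
    obtain ⟨e⟩ := hA.iso hX e j i
    obtain ⟨L, h1, h2, h3⟩ := h
    exact ⟨L, h1, Module.Finite.equiv e, by rwa [← e.finrank_eq]⟩
  total a b hX ht hZ hU := by
    obtain ⟨L, h1, h2, h3⟩ := hZ
    obtain ⟨L', h1', h2', h3'⟩ := hU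
    obtain ⟨f, g, h⟩ := hA.exact a b hX ht j i
    obtain ⟨h4, h5⟩ := finite_of_exact f g h
    refine ⟨L ++ L', fun Y hY => (List.mem_append.mp hY).elim (h1 Y) (h1' Y), h4, ?_⟩
    rw [List.map_append, List.sum_append]
    omega

lemma to_all {K Sm P : Sch ℤ → Prop} (hK : Hered False K) (hS : Generic Sm) (hP : Ext False P) :
    ((∀ X : Sch ℤ, IsRealizationSpace X → Nice K Sm X → P X) →
      ∀ X : Sch ℤ, FT False X → K X → P X) ∧
    ((∀ X : Sch ℤ, IsUnitScheme X → Nice K Sm X → P X) →
      ∀ X : Sch ℤ, FT False X → K X → P X) := by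
  obtain ⟨h1, h2⟩ := three_gen presents_int hP hK hS
  exact ⟨fun h => h1.mpr fun E _ π hX1 hX2 => h _ ⟨E, _, π, rfl⟩ ⟨hX1, hX2⟩,
    fun h => h2.mpr fun I _ S hX1 hX2 => h _ ⟨I, _, S, rfl⟩ ⟨hX1, hX2⟩⟩

/-- **Theorem.** The schemes of dimension at most `d` are a hereditary class; to be smooth over `ℤ` or over a
prime field is a generic property. Let `K` be a hereditary class and `Sm` a generic property of schemes over
`ℤ`, and let `A j i X = CH_j(X, i) ⊗ ℚ`. For all integers `j` and `i`, and for `G` the realization spaces, as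
well as for `G` the unit schemes: `A j i X` is finite-dimensional for all `X` in `K` of finite type over `ℤ` if
and only if it is finite-dimensional for the schemes `X` in `G` which are in `K` and empty or integral with the
property `Sm`; and then the dimension of `A j i X`, for `X` in `K` of finite type, is at most the sum of the
dimensions of `A j i Y` for a finite family of such schemes `Y`. -/
theorem result :
    (∀ d : WithBot ℕ∞, Hered False fun X : Sch ℤ => topologicalKrullDim X.left ≤ d) ∧
    (Generic fun X : Sch ℤ => SmoothOverPrime X.left) ∧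
    ∀ K Sm : Sch ℤ → Prop, Hered False K → Generic Sm →
      ∀ A : ℤ → ℤ → Sch ℤ → ModuleCat.{w} ℚ, IsLocalizing A → ∀ j i : ℤ,
      ∀ G : Sch ℤ → Prop, (G = IsRealizationSpace ∨ G = IsUnitScheme) →
        ((∀ X : Sch ℤ, LocallyOfFiniteType X.hom → QuasiCompact X.hom → K X →
            Module.Finite ℚ (A j i X)) ↔
          ∀ X : Sch ℤ, G X → Nice K Sm X → Module.Finite ℚ (A j i X)) ∧
        ((∀ X : Sch ℤ, G X → Nice K Sm X → Module.Finite ℚ (A j i X)) →
          ∀ X : Sch ℤ, LocallyOfFiniteType X.hom → QuasiCompact X.hom → K X →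
            Bounded A j i (fun Y => G Y ∧ Nice K Sm Y) X) := by
  refine ⟨fun d => hered_dim False d, generic_smooth, fun K Sm hK hS A hA j i G hG => ?_⟩
  have key : ∀ P : Sch ℤ → Prop, Ext False P → (∀ X : Sch ℤ, G X → Nice K Sm X → P X) →
      ∀ X : Sch ℤ, LocallyOfFiniteType X.hom → QuasiCompact X.hom → K X → P X := by
    intro P hP h X a b hX
    rcases hG with rfl | rfl
    · exact (to_all hK hS hP).1 h X ⟨a, b, fun h => h.elim⟩ hX
    · exact (to_all hK hS hP).2 h X ⟨a, b, fun h => h.elim⟩ hX
  have hft : ∀ X : Sch ℤ, G X → FT False X := by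
    intro X hX
    rcases hG with rfl | rfl
    · obtain ⟨E, _, π, rfl⟩ := hX
      exact ft_aff False
    · obtain ⟨I, _, S, rfl⟩ := hX
      exact ft_aff False
  refine ⟨⟨fun h X hX hn => h X (hft X hX).1 (hft X hX).2 hn.1, fun h => key _ (ext_finite hA j i) h⟩,
    fun h => key _ (ext_bounded hA j i _) fun X hX hn => ?_⟩
  exact ⟨[X], fun Y hY => by
    rw [List.mem_singleton] at hY
    exact hY ▸ ⟨hX, hn⟩, h X hX hn, by simp⟩

end Pool.Agent.Results.MP_12d50c_ag.RealizationSpaces
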